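import Mathlib

set_option autoImplicit false

/-!
Points of a lattice in a finite dimensional real vector space.
-/

namespace Pool.Agent.Lib.MP_bf61d2_nt.Zeta

open Module

variable {E : Type*} [NormedAddCommGroup E] [NormedSpace ℝ E]

variable {ι : Type*} [Fintype ι] (b : Basis ι ℝ E)

/-- The lattice point with given coordinates. -/
noncomputable def pt (a : ι → ℤ) : E := ∑ i, (a i : ℝ) • b i

lemma pt_injective : Function.Injective (pt b) := by
  intro a a' h
  have h1 := b.linearIndependent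
  rw [Fintype.linearIndependent_iff] at h1
  ext i
  have h2 : ∑ i, ((a i : ℝ) - (a' i : ℝ)) • b i = 0 := by
    simp only [sub_smul, Finset.sum_sub_distrib]
    exact sub_eq_zero.mpr h
  have h3 := h1 _ h2 i
  have h4 : (a i : ℝ) = (a' i : ℝ) := by linarith
  exact_mod_cast h4

lemma pt_zero : pt b 0 = 0 := by simp [pt]

lemma pt_ne_zero {a : ι → ℤ} (ha : a ≠ 0) : pt b a ≠ 0 := by
  rw [← pt_zero b]; exact fun h => ha (pt_injective b h)

lemma pt_add (a a' : ι → ℤ) : pt b (a + a') = pt b a + pt b a' := by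
  simp [pt, add_smul, Finset.sum_add_distrib]

lemma pt_mul (m : ℕ) (a : ι → ℤ) : pt b (fun i => a i * m) = (m : ℝ) • pt b a := by
  simp only [pt, Finset.smul_sum, smul_smul]
  refine Finset.sum_congr rfl fun i _ => ?_
  push_cast
  rw [mul_comm]

lemma pt_mem (a : ι → ℤ) : pt b a ∈ Submodule.span ℤ (Set.range b) := by
  refine Submodule.sum_mem _ fun i _ => ?_
  rw [Int.cast_smul_eq_zsmul]
  exact Submodule.smul_mem _ _ (Submodule.subset_span ⟨i, rfl⟩)

lemma summable_pt [FiniteDimensional ℝ E] {ρ : ℝ} (hρ : finrank ℝ E < ρ) :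
    Summable fun a : ι → ℤ => ‖pt b a‖ ^ (-ρ) := by
  have hrank : finrank ℤ (Submodule.span ℤ (Set.range b)) = finrank ℝ E := ZLattice.rank ℝ _
  have h : Summable fun z : Submodule.span ℤ (Set.range b) => ‖z‖ ^ (-ρ) :=
    ZLattice.summable_norm_rpow (Submodule.span ℤ (Set.range b)) (-ρ) (by rw [hrank]; linarith)
  set f : (ι → ℤ) → Submodule.span ℤ (Set.range b) := fun a => ⟨pt b a, pt_mem b a⟩ with hf
  have hfv : ∀ a, (f a : E) = pt b a := fun a => rfl
  have h2 : Function.Injective f := by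
    intro a a' h
    apply pt_injective b
    rw [← hfv, ← hfv, h]
  have h4 := h.comp_injective h2
  have e : (fun a : ι → ℤ => ‖pt b a‖ ^ (-ρ)) =
      (fun z : Submodule.span ℤ (Set.range b) => ‖z‖ ^ (-ρ)) ∘ f := by
    funext a
    rw [Function.comp_apply, ← hfv a]
    rfl
  rw [e]
  exact h4

/-- Division with remainder. -/
noncomputable def dv (ι : Type*) (m : ℕ) [NeZero m] : (ι → ℤ) × (ι → Fin m) ≃ (ι → ℤ) :=
  ((Equiv.piCongrRight fun _ : ι => Int.divModEquiv m).trans
    (Equiv.arrowProdEquivProdArrow ι (fun _ => ℤ) (fun _ => Fin m))).symm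

omit [Fintype ι] in
lemma dv_apply (m : ℕ) [NeZero m] (y : ι → ℤ) (c : ι → Fin m) :
    dv ι m (y, c) = (fun i => y i * m) + fun i => ((c i : ℕ) : ℤ) := by
  funext i
  rfl

/-- The dilation identity. -/
lemma tsum_dilation [DecidableEq ι] (m : ℕ) [NeZero m] {F : (ι → ℤ) → ℂ} (hF : Summable F) (μ : ℂ)
    (hμ : ∀ y : ι → ℤ, F (fun i => y i * m) = μ * F y) :
    (1 - (m : ℂ) ^ Fintype.card ι * μ) * ∑' a, F a =
      ∑' y : ι → ℤ, ∑ c : ι → Fin m, (F (dv ι m (y, c)) - F (fun i => y i * m)) := by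
  have h1 : Summable fun p : (ι → ℤ) × (ι → Fin m) => F (dv ι m p) :=
    (dv ι m).summable_iff.mpr hF
  have h2 : ∑' a, F a = ∑' y : ι → ℤ, ∑ c : ι → Fin m, F (dv ι m (y, c)) := by
    rw [← (dv ι m).tsum_eq F, h1.tsum_prod]
    exact tsum_congr fun y => tsum_fintype _
  have h3 : Summable fun y : ι → ℤ => ∑ c : ι → Fin m, F (dv ι m (y, c)) := by
    have := h1.prod
    exact this.congr fun y => (tsum_fintype _)
  have h4 : Summable fun y : ι → ℤ => ∑ _c : ι → Fin m, F (fun i => y i * m) := by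
    have : (fun y : ι → ℤ => ∑ _c : ι → Fin m, F (fun i => y i * m)) =
        fun y => (m : ℂ) ^ Fintype.card ι * μ * F y := by
      funext y
      rw [Finset.sum_const, nsmul_eq_mul, hμ, Finset.card_univ, Fintype.card_fun, Fintype.card_fin]
      push_cast
      ring
    rw [this]
    exact hF.mul_left _
  have h5 : ∑' y : ι → ℤ, ∑ _c : ι → Fin m, F (fun i => y i * m) =
      (m : ℂ) ^ Fintype.card ι * μ * ∑' a, F a := by
    rw [← tsum_mul_left]
    refine tsum_congr fun y => ?_
    rw [Finset.sum_const, nsmul_eq_mul, hμ, Finset.card_univ, Fintype.card_fun, Fintype.card_fin]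
    push_cast
    ring
  simp only [Finset.sum_sub_distrib]
  rw [h3.tsum_sub h4, h5, ← h2]
  ring

end Pool.Agent.Lib.MP_bf61d2_nt.Zeta
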