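import Mathlib
import Pool.Agent.Lib.MP_bf61d2_nt.Trim.Zeta.Cone
import Pool.Agent.Lib.MP_bf61d2_nt.Trim.Zeta.Lattice
import Pool.Agent.Lib.MP_bf61d2_nt.Trim.Zeta.Lip

set_option autoImplicit false

/-!
Continuation of lattice sums of `Phi(x) N(x)^(-s)` by dilation.
-/

namespace NumberField
end NumberField

namespace Pool.Agent.Lib.MP_bf61d2_nt.Zeta

open NumberField NumberField.mixedEmbedding NumberField.Units NumberField.InfinitePlace

open NumberField.mixedEmbedding.fundamentalCone NumberField.Units.dirichletUnitTheorem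

open Module

open scoped Classical

variable {K : Type*} [Field K] [NumberField K]

lemma hh_zero (s : ℂ) : hh s (0 : mixedSpace K) = 0 := by
  rw [hh, if_pos (map_zero _)]

/-- The exponential factor. -/
noncomputable def fac (K : Type*) [Field K] [NumberField K] (m : ℕ) (s : ℂ) : ℂ :=
  Complex.exp (-(s * (finrank ℚ K * Real.log m : ℝ)))

lemma Phi_smul {m : ℕ} (hm : m ≠ 0) {x : mixedSpace K} (hx : mixedEmbedding.norm x ≠ 0) :
    Phi ((m : ℝ) • x) = Phi x := by
  have : (m : ℝ) ≠ 0 := Nat.cast_ne_zero.mpr hm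
  simp only [Phi, crd, logMap_real_smul hx this]

lemma hh_smul {m : ℕ} (hm : m ≠ 0) (s : ℂ) (x : mixedSpace K) :
    hh s ((m : ℝ) • x) = fac K m s * hh s x := by
  have hm' : (m : ℝ) ≠ 0 := Nat.cast_ne_zero.mpr hm
  by_cases hx : mixedEmbedding.norm x = 0
  · rw [hh, hh, if_pos hx, if_pos (by rw [mixedEmbedding.norm_smul, hx, mul_zero]), mul_zero]
  · have h1 : mixedEmbedding.norm ((m : ℝ) • x) = (m : ℝ) ^ finrank ℚ K * mixedEmbedding.norm x := by
      rw [mixedEmbedding.norm_smul, abs_of_nonneg (Nat.cast_nonneg _)]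
    have h2 : mixedEmbedding.norm ((m : ℝ) • x) ≠ 0 := by
      rw [h1]; exact mul_ne_zero (pow_ne_zero _ hm') hx
    rw [hh, hh, if_neg hx, if_neg h2, Phi_smul hm hx, h1, Real.log_mul (pow_ne_zero _ hm') hx,
      Real.log_pow, fac]
    have e : -(s * (((finrank ℚ K : ℝ) * Real.log m + Real.log (mixedEmbedding.norm x) : ℝ) : ℂ)) =
        -(s * ((finrank ℚ K * Real.log m : ℝ) : ℂ)) +
          -(s * (Real.log (mixedEmbedding.norm x) : ℂ)) := by push_cast; ring
    rw [e, Complex.exp_add]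
    ring

lemma norm_hh_le_one {s : ℂ} (hs : 0 ≤ s.re) {x : mixedSpace K} (hx : 1 ≤ mixedEmbedding.norm x) :
    ‖hh s x‖ ≤ 1 := by
  rw [hh, if_neg (by linarith), norm_mul, Complex.norm_real, Real.norm_eq_abs,
    abs_of_nonneg (Phi_nonneg x), Complex.norm_exp, Complex.neg_re, Complex.re_mul_ofReal]
  refine mul_le_one₀ (Phi_le_one x) (Real.exp_pos _).le (Real.exp_le_one_iff.mpr ?_)
  have := Real.log_nonneg hx
  nlinarith

lemma exists_hh_bound (K : Type*) [Field K] [NumberField K] {s : ℂ} (hs : 0 ≤ s.re) :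
    ∃ C : ℝ, 0 < C ∧ ∀ x : mixedSpace K, mixedEmbedding.norm x ≠ 0 →
      ‖hh s x‖ ≤ C * ‖x‖ ^ (-(finrank ℚ K * s.re)) := by
  obtain ⟨κ, hκ0, hκ1, hκ⟩ := exists_kappa K
  refine ⟨κ ^ (-(finrank ℚ K * s.re)), by positivity, fun x hx => ?_⟩
  have hx0 : x ≠ 0 := by rintro rfl; exact hx (map_zero _)
  have hX : 0 < ‖x‖ := norm_pos_iff.mpr hx0
  by_cases hP : Phi x = 0
  · rw [hh, if_neg hx, hP]
    simp only [Complex.ofReal_zero, zero_mul, norm_zero]
    positivity
  · have h1 := pow_le_norm (m := κ * ‖x‖) (by positivity) (hκ x hP hx)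
    have h2 : 0 < (κ * ‖x‖) ^ finrank ℚ K := by positivity
    rw [hh, if_neg hx, norm_mul, Complex.norm_real, Real.norm_eq_abs,
      abs_of_nonneg (Phi_nonneg x), Complex.norm_exp, Complex.neg_re, Complex.re_mul_ofReal]
    refine (mul_le_of_le_one_left (Real.exp_pos _).le (Phi_le_one x)).trans ?_
    rw [← Real.mul_rpow hκ0.le hX.le, Real.rpow_def_of_pos (by positivity)]
    apply Real.exp_le_exp.mpr
    have h3 := Real.log_le_log h2 h1
    rw [Real.log_pow] at h3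
    nlinarith

lemma differentiable_hh (x : mixedSpace K) : Differentiable ℂ fun s => hh s x := by
  unfold hh
  split_ifs with h
  · exact differentiable_const _
  · fun_prop

section Sum

variable {ι : Type*} [Fintype ι] (b : Basis ι ℝ (mixedSpace K))

lemma summable_hh (hN : ∀ a : ι → ℤ, a ≠ 0 → 1 ≤ mixedEmbedding.norm (pt b a)) {s : ℂ}
    (hs : 1 < s.re) : Summable fun a : ι → ℤ => hh s (pt b a) := by
  obtain ⟨C, hC0, hC⟩ := exists_hh_bound K (s := s) (by linarith)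
  have hn : (0 : ℝ) < finrank ℚ K := by exact_mod_cast finrank_pos
  have h1 := summable_pt b (ρ := finrank ℚ K * s.re) (by
    rw [mixedEmbedding.finrank]; nlinarith)
  refine Summable.of_norm_bounded (h1.mul_left C) fun a => ?_
  by_cases ha : a = 0
  · rw [ha, pt_zero, hh_zero, norm_zero]; positivity
  · exact hC _ (by linarith [hN a ha])

/-- The difference sum. -/
noncomputable def Ds (m : ℕ) [NeZero m] (s : ℂ) : ℂ :=
  ∑' y : ι → ℤ, ∑ c : ι → Fin m, (hh s (pt b (dv ι m (y, c))) - hh s (pt b (fun i => y i * m)))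

theorem dilation (hN : ∀ a : ι → ℤ, a ≠ 0 → 1 ≤ mixedEmbedding.norm (pt b a)) (m : ℕ) [NeZero m]
    {s : ℂ} (hs : 1 < s.re) :
    (1 - (m : ℂ) ^ Fintype.card ι * fac K m s) * ∑' a : ι → ℤ, hh s (pt b a) = Ds b m s := by
  refine tsum_dilation m (summable_hh b hN hs) _ fun y => ?_
  rw [pt_mul, hh_smul (NeZero.ne m)]

lemma exists_diff_bound (hN : ∀ a : ι → ℤ, a ≠ 0 → 1 ≤ mixedEmbedding.norm (pt b a)) (m : ℕ)
    [NeZero m] {R σ₀ : ℝ} (hR : 0 < R) (hσ : 0 < σ₀) : ∃ C : ℝ, 0 < C ∧ ∀ (y : ι → ℤ), y ≠ 0 →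
      ∀ c : ι → Fin m, ∀ s : ℂ, σ₀ ≤ s.re → ‖s‖ ≤ R →
      ‖hh s (pt b (dv ι m (y, c))) - hh s (pt b (fun i => y i * m))‖ ≤
        C * ‖pt b y‖ ^ (-(finrank ℚ K * σ₀ + 1)) := by
  have hm0 : m ≠ 0 := NeZero.ne m
  have hm1 : (1 : ℝ) ≤ m := by exact_mod_cast Nat.one_le_iff_ne_zero.mpr hm0
  set c₀ : ℝ := ∑ i, m * ‖b i‖ + 1 with hc₀
  have hc₀0 : 0 < c₀ := by
    have : 0 ≤ ∑ i, m * ‖b i‖ := Finset.sum_nonneg fun i _ => by positivity
    linarith
  obtain ⟨C, R₀, hC, hR₀, hlip⟩ := lipschitz K hc₀0 hR hσ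
  set e : ℝ := finrank ℚ K * σ₀ + 1 with he
  have he0 : 0 < e := by positivity
  refine ⟨C + 2 * R₀ ^ e, by positivity, fun y hy c s hs1 hs2 => ?_⟩
  set x := pt b (fun i => y i * m) with hx
  set x' := pt b (dv ι m (y, c)) with hx'
  have hxm : x = (m : ℝ) • pt b y := pt_mul b m y
  have hxn : ‖x‖ = m * ‖pt b y‖ := by
    rw [hxm, _root_.norm_smul, Real.norm_eq_abs, abs_of_nonneg (Nat.cast_nonneg _)]
  have hy0 : 0 < ‖pt b y‖ := norm_pos_iff.mpr (pt_ne_zero b hy)
  have hyx : ‖pt b y‖ ≤ ‖x‖ := by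
    rw [hxn]; exact le_mul_of_one_le_left hy0.le hm1
  have h0 : (fun i => y i * (m : ℤ)) ≠ 0 := by
    intro h
    apply hy
    funext i
    have := congrFun h i
    simpa [hm0] using this
  have h0' : dv ι m (y, c) ≠ 0 := by
    intro h
    have h1 : dv ι m (0, 0) = 0 := by
      rw [dv_apply]; funext i; simp
    rw [← h1] at h
    exact hy (congrArg Prod.fst ((dv ι m).injective h))
  have hNx := hN _ h0
  have hNx' := hN _ h0'
  rw [← hx] at hNx
  rw [← hx'] at hNx'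
  have hdist : ‖x - x'‖ ≤ c₀ := by
    rw [hx, hx', dv_apply, pt_add, sub_add_cancel_left, norm_neg, pt]
    refine (norm_sum_le _ _).trans ?_
    have : ∑ i, ‖((((c i : ℕ) : ℤ) : ℝ)) • b i‖ ≤ ∑ i, m * ‖b i‖ := by
      refine Finset.sum_le_sum fun i _ => ?_
      rw [_root_.norm_smul, Real.norm_eq_abs]
      refine mul_le_mul_of_nonneg_right ?_ (norm_nonneg _)
      rw [Int.cast_natCast, abs_of_nonneg (Nat.cast_nonneg _)]
      exact_mod_cast (c i).2.le
    linarith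
  have hpow : (0 : ℝ) < ‖pt b y‖ ^ (-e) := Real.rpow_pos_of_pos hy0 _
  rcases le_or_gt R₀ ‖x‖ with h | h
  · refine (hlip x x' (by linarith) (by linarith) hdist h s hs1 hs2).trans ?_
    have h2 : ‖x‖ ^ (-e) ≤ ‖pt b y‖ ^ (-e) :=
      Real.rpow_le_rpow_of_nonpos hy0 hyx (by linarith)
    have h3 : 0 ≤ 2 * R₀ ^ e * ‖pt b y‖ ^ (-e) := by positivity
    calc C * ‖x‖ ^ (-e) ≤ C * ‖pt b y‖ ^ (-e) := mul_le_mul_of_nonneg_left h2 hC.le
      _ ≤ _ := by linarith [add_mul C (2 * R₀ ^ e) (‖pt b y‖ ^ (-e))]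
  · have h2 : ‖hh s x' - hh s x‖ ≤ 2 := by
      refine (norm_sub_le _ _).trans ?_
      linarith [norm_hh_le_one (s := s) (by linarith) hNx, norm_hh_le_one (s := s) (by linarith) hNx']
    have h3 : 1 ≤ R₀ ^ e * ‖pt b y‖ ^ (-e) := by
      have h4 : ‖pt b y‖ ^ e ≤ R₀ ^ e := Real.rpow_le_rpow hy0.le (hyx.trans h.le) he0.le
      calc (1 : ℝ) = ‖pt b y‖ ^ e * ‖pt b y‖ ^ (-e) := by
            rw [← Real.rpow_add hy0, add_neg_cancel, Real.rpow_zero]
        _ ≤ _ := mul_le_mul_of_nonneg_right h4 hpow.le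
    have h5 : 0 ≤ C * ‖pt b y‖ ^ (-e) := by positivity
    calc ‖hh s x' - hh s x‖ ≤ 2 * (R₀ ^ e * ‖pt b y‖ ^ (-e)) := by linarith
      _ ≤ _ := by linarith [add_mul C (2 * R₀ ^ e) (‖pt b y‖ ^ (-e))]

theorem analyticAt_Ds (hN : ∀ a : ι → ℤ, a ≠ 0 → 1 ≤ mixedEmbedding.norm (pt b a)) (m : ℕ)
    [NeZero m] (u : ℝ) : AnalyticAt ℂ (Ds b m) (1 + u * Complex.I) := by
  have hn : (1 : ℝ) ≤ finrank ℚ K := by exact_mod_cast finrank_pos
  set n : ℝ := (finrank ℚ K : ℝ) with hnn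
  set σ₀ : ℝ := 1 - 1 / (2 * n) with hσ
  have h2n : 1 / (2 * n) ≤ 1 / 2 := by
    apply div_le_div_of_nonneg_left (by norm_num) (by norm_num) (by linarith)
  have hσ0 : 0 < σ₀ := by linarith
  have hσ1 : σ₀ < 1 := by
    have : 0 < 1 / (2 * n) := by positivity
    linarith
  set R : ℝ := |u| + 2 with hR
  have hR0 : 0 < R := by positivity
  obtain ⟨C, hC0, hC⟩ := exists_diff_bound b hN m hR0 hσ0
  set U : Set ℂ := {s | σ₀ < s.re} ∩ {s | ‖s‖ < R} with hU
  have hUo : IsOpen U := (isOpen_lt continuous_const Complex.continuous_re).inter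
    (isOpen_lt continuous_norm continuous_const)
  have hmem : (1 + u * Complex.I : ℂ) ∈ U := by
    constructor
    · show σ₀ < (1 + u * Complex.I : ℂ).re
      simpa using hσ1
    · show ‖(1 + u * Complex.I : ℂ)‖ < R
      refine (norm_add_le _ _).trans_lt ?_
      rw [norm_mul, Complex.norm_I, Complex.norm_real, Real.norm_eq_abs, norm_one, mul_one]
      linarith
  have hs1 := summable_pt b (ρ := n * σ₀ + 1) (by
    rw [mixedEmbedding.finrank, ← hnn, hσ]
    have : n * (1 / (2 * n)) = 1 / 2 := by field_simp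
    nlinarith)
  have hs2 : Summable fun y : ι → ℤ => if y = 0 then (1 : ℝ) else 0 :=
    summable_of_ne_finset_zero (s := {0}) fun y hy => by
      rw [if_neg (by simpa using hy)]
  have hs3 := ((hs1.mul_left C).add hs2).mul_left (Fintype.card (ι → Fin m) : ℝ)
  have hd : DifferentiableOn ℂ (Ds b m) U := by
    refine Complex.differentiableOn_tsum_of_summable_norm hs3 (fun y => ?_) hUo fun y s hs => ?_
    · exact (Differentiable.fun_sum fun c _ =>
        (differentiable_hh _).sub (differentiable_hh _)).differentiableOn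
    · refine (norm_sum_le _ _).trans ?_
      rw [← nsmul_eq_mul, ← Finset.card_univ]
      refine Finset.sum_le_card_nsmul _ _ _ fun c _ => ?_
      by_cases hy : y = 0
      · rw [if_pos hy, hy]
        have e1 : (fun i => (0 : ι → ℤ) i * (m : ℤ)) = 0 := by funext i; simp
        rw [e1, pt_zero, hh_zero, sub_zero]
        have h4 : ‖hh s (pt b (dv ι m (0, c)))‖ ≤ 1 := by
          by_cases h5 : dv ι m (0, c) = 0
          · rw [h5, pt_zero, hh_zero, norm_zero]; norm_num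
          · exact norm_hh_le_one (hσ0.trans hs.1).le (hN _ h5)
        have h6 : 0 ≤ C * ‖(0 : mixedSpace K)‖ ^ (-(n * σ₀ + 1)) := by positivity
        linarith
      · rw [if_neg hy, add_zero]
        exact hC y hy c s hs.1.le hs.2.le
  exact hd.analyticAt (hUo.mem_nhds hmem)

end Sum

end Pool.Agent.Lib.MP_bf61d2_nt.Zeta
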