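import Mathlib
import Pool.Agent.Lib.MP_bf61d2_nt.Trim.Edge.PlaceSum
import Pool.Agent.Lib.MP_bf61d2_nt.Trim.Places

set_option autoImplicit false

/-!
Non-vanishing of the Dedekind zeta function on the line `Re s = 1`, given its continuation
to a neighbourhood of each point `1 + iu`, `u ≠ 0`.
-/

namespace NumberField
end NumberField

namespace Pool.Agent.Lib.MP_bf61d2_nt.Edge
end Pool.Agent.Lib.MP_bf61d2_nt.Edge

namespace Pool.Agent.Lib.MP_bf61d2_nt.Zeta

open Filter Topology NumberField IsDedekindDomain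

open Pool.Agent.Lib.MP_bf61d2_nt.Edge

variable {K : Type*} [Field K] [NumberField K]

/-! ### Absolute convergence -/

lemma exists_summable_idn (K : Type*) [Field K] [NumberField K] {σ : ℝ} (hσ : 1 < σ) :
    ∃ τ : ℝ, 1 < τ ∧ τ < σ ∧ Summable fun n : ℕ => (idn K n : ℝ) * (n : ℝ) ^ (-τ) := by
  have hρ0 : 0 < dedekindZeta_residue K := dedekindZeta_residue_pos K
  have h2 := tendsto_sub_one_mul_dedekindZeta_nhdsGT K
  have h3 := h2.norm
  have hn : ‖((dedekindZeta_residue K : ℝ) : ℂ)‖ = dedekindZeta_residue K := by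
    rw [Complex.norm_real, Real.norm_eq_abs, abs_of_pos hρ0]
  rw [hn] at h3
  have h4 := h3.eventually_const_lt hρ0
  have h5 : ∀ᶠ τ : ℝ in 𝓝[>] 1, τ ∈ Set.Ioo 1 σ := Ioo_mem_nhdsGT hσ
  obtain ⟨τ, hτ1, hτ2⟩ := (h4.and h5).exists
  refine ⟨τ, hτ2.1, hτ2.2, ?_⟩
  by_contra hcon
  have hτ0 : (0 : ℝ) < τ := by linarith [hτ2.1]
  rw [dedekindZeta_eq hτ0, tsum_eq_zero_of_not_summable hcon] at hτ1
  simp at hτ1

lemma summable_idn {σ : ℝ} (hσ : 1 < σ) :
    Summable fun n : ℕ => (idn K n : ℝ) * (n : ℝ) ^ (-σ) := by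
  obtain ⟨τ, hτ1, hτ2, hs⟩ := exists_summable_idn K hσ
  refine Summable.of_nonneg_of_le (fun n => by positivity) (fun n => ?_) hs
  refine mul_le_mul_of_nonneg_left ?_ (Nat.cast_nonneg _)
  rcases Nat.eq_zero_or_pos n with rfl | hn
  · rw [Nat.cast_zero, Real.zero_rpow (by linarith), Real.zero_rpow (by linarith)]
  · exact Real.rpow_le_rpow_of_exponent_le (by exact_mod_cast hn) (by linarith)

lemma summable_ideals {σ : ℝ} (hσ : 1 < σ) :
    Summable fun I : Ideal (𝓞 K) => (Ideal.absNorm I : ℝ) ^ (-σ) :=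
  summable_of_sum_le (fun _ => by positivity) (sum_ideals_le σ (summable_idn hσ))

lemma norm_term {s : ℂ} (hs : 1 < s.re) (n : ℕ) : ‖(n : ℂ) ^ (-s)‖ = (n : ℝ) ^ (-s.re) := by
  rw [Complex.norm_natCast_cpow_of_re_ne_zero n (by simp; linarith), Complex.neg_re]

lemma summable_ideals_complex {s : ℂ} (hs : 1 < s.re) :
    Summable fun I : Ideal (𝓞 K) => (Ideal.absNorm I : ℂ) ^ (-s) := by
  refine Summable.of_norm ?_
  simp_rw [norm_term hs]
  exact summable_ideals hs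

/-- The Dedekind zeta function as a sum over ideals. -/
lemma hasSum_ideals {s : ℂ} (hs : 1 < s.re) :
    HasSum (fun I : Ideal (𝓞 K) => (Ideal.absNorm I : ℂ) ^ (-s)) (dedekindZeta K s) := by
  have h1 := (summable_ideals_complex (K := K) hs).hasSum
  convert h1 using 1
  have h2 := h1.tsum_fiberwise (fun I : Ideal (𝓞 K) => Ideal.absNorm I)
  rw [← h2.tsum_eq, dedekindZeta, LSeries]
  refine tsum_congr fun n => ?_
  have h3 : ∑' b : (fun I : Ideal (𝓞 K) => Ideal.absNorm I) ⁻¹' {n},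
      ((Ideal.absNorm (b : Ideal (𝓞 K)) : ℕ) : ℂ) ^ (-s) =
      ∑' b : (fun I : Ideal (𝓞 K) => Ideal.absNorm I) ⁻¹' {n}, (n : ℂ) ^ (-s) := by
    refine tsum_congr fun b => ?_
    have hb : Ideal.absNorm (b : Ideal (𝓞 K)) = n := b.2
    rw [hb]
  rw [h3, tsum_const, nsmul_eq_mul, LSeries.term_def]
  have hs0 : s ≠ 0 := by rintro rfl; simp at hs; linarith
  split_ifs with h
  · subst h
    rw [Nat.cast_zero, Complex.zero_cpow (neg_ne_zero.mpr hs0), mul_zero]
  · rw [Complex.cpow_neg, div_eq_mul_inv]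
    rfl

/-! ### The Euler product -/

lemma norm_local {s : ℂ} (hs : 1 < s.re) (v : HeightOneSpectrum (𝓞 K)) :
    ‖(nm v : ℂ) ^ (-s)‖ < 1 := by
  rw [norm_term hs]
  exact Real.rpow_lt_one_of_one_lt_of_neg (by exact_mod_cast one_lt_nm v) (by linarith)

lemma prod_geom_eq {s : ℂ} (hs : 1 < s.re) (S : Finset (HeightOneSpectrum (𝓞 K))) (M : ℕ)
    [DecidableEq (Ideal (𝓞 K))] [DecidableEq S] :
    ∏ i : S, ∑ k ∈ Finset.range M, ((nm i.1 : ℂ) ^ (-s)) ^ k =
      ∑ I ∈ (Fintype.piFinset (fun _ : S => Finset.range M)).image (idl S),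
        (Ideal.absNorm I : ℂ) ^ (-s) := by
  have hs0 : s ≠ 0 := by rintro rfl; simp at hs; linarith
  rw [Finset.prod_univ_sum]
  rw [Finset.sum_image (fun a _ b _ h => idl_injective S h)]
  refine Finset.sum_congr rfl fun e _ => ?_
  rw [absNorm_idl]
  have h := map_prod (riemannZetaSummandHom hs0) (fun i : S => nm i.1 ^ e i) Finset.univ
  simp only [map_pow] at h
  exact h.symm

lemma exists_idl {I : Ideal (𝓞 K)} (hI : I ≠ 0) :
    ∃ S₀ : Finset (HeightOneSpectrum (𝓞 K)), ∀ S : Finset (HeightOneSpectrum (𝓞 K)), S₀ ⊆ S →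
      ∃ e : S → ℕ, idl S e = I := by
  classical
  have hfin := Ideal.hasFiniteMulSupport hI
  refine ⟨hfin.toFinset, fun S hS => ?_⟩
  refine ⟨fun i => (Associates.mk i.1.asIdeal).count (Associates.mk I).factors, ?_⟩
  have h1 := Ideal.finprod_heightOneSpectrum_factorization hI
  rw [finprod_eq_prod_of_mulSupport_subset (s := S) _ (by
    intro v hv
    exact hS (hfin.mem_toFinset.mpr hv))] at h1
  rw [idl]
  rw [← Finset.prod_coe_sort] at h1
  exact h1

/-- The Euler product of the Dedekind zeta function. -/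
theorem tendsto_euler {s : ℂ} (hs : 1 < s.re) :
    Tendsto (fun S : Finset (HeightOneSpectrum (𝓞 K)) => ∏ v ∈ S, (1 - (nm v : ℂ) ^ (-s))⁻¹) atTop
      (𝓝 (dedekindZeta K s)) := by
  classical
  have hs0 : s ≠ 0 := by rintro rfl; simp at hs; linarith
  have hZ := hasSum_ideals (K := K) hs
  rw [Metric.tendsto_atTop]
  intro ε hε
  have hZ' : Tendsto (fun T : Finset (Ideal (𝓞 K)) => ∑ I ∈ T, (Ideal.absNorm I : ℂ) ^ (-s)) atTop
      (𝓝 (dedekindZeta K s)) := hZ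
  rw [Metric.tendsto_atTop] at hZ'
  obtain ⟨F, hF⟩ := hZ' (ε / 2) (by linarith)
  have hc : ∀ I : Ideal (𝓞 K), ∃ S₀ : Finset (HeightOneSpectrum (𝓞 K)), I ≠ 0 →
      ∀ S : Finset (HeightOneSpectrum (𝓞 K)), S₀ ⊆ S → ∃ e : S → ℕ, idl S e = I := by
    intro I
    by_cases hI : I = 0
    · exact ⟨∅, fun h => absurd hI h⟩
    · obtain ⟨S₀, h⟩ := exists_idl hI
      exact ⟨S₀, fun _ => h⟩
  choose S₀ hS₀ using hc
  refine ⟨F.biUnion S₀, fun S hS => ?_⟩
  have hS' : ∀ I ∈ F, I ≠ 0 → ∃ e : S → ℕ, idl S e = I := fun I hI hI0 =>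
    hS₀ I hI0 S ((Finset.subset_biUnion_of_mem S₀ hI).trans hS)
  have hev : ∀ᶠ M : ℕ in atTop, ∀ I ∈ F, I ≠ 0 →
      I ∈ (Fintype.piFinset (fun _ : S => Finset.range M)).image (idl S) := by
    rw [Filter.eventually_all_finset]
    intro I hI
    by_cases hI0 : I = 0
    · exact Eventually.of_forall fun M h => absurd hI0 h
    · obtain ⟨e, he⟩ := hS' I hI hI0
      filter_upwards [eventually_ge_atTop (Finset.univ.sup e + 1)] with M hM _
      refine Finset.mem_image.mpr ⟨e, ?_, he⟩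
      rw [Fintype.mem_piFinset]
      intro i
      rw [Finset.mem_range]
      have := Finset.le_sup (f := e) (Finset.mem_univ i)
      omega
  have hlim : Tendsto (fun M : ℕ => ∏ i : S, ∑ k ∈ Finset.range M, ((nm i.1 : ℂ) ^ (-s)) ^ k) atTop
      (𝓝 (∏ i : S, (1 - (nm i.1 : ℂ) ^ (-s))⁻¹)) :=
    tendsto_finsetProd _ fun i _ =>
      (hasSum_geometric_of_norm_lt_one (norm_local hs i.1)).tendsto_sum_nat
  rw [← Finset.prod_coe_sort]
  refine lt_of_le_of_lt ?_ (half_lt_self hε)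
  refine le_of_tendsto (hlim.dist tendsto_const_nhds) ?_
  filter_upwards [hev] with M hM
  rw [prod_geom_eq hs]
  have h0 : ((Ideal.absNorm (0 : Ideal (𝓞 K)) : ℕ) : ℂ) ^ (-s) = 0 := by
    simp [Complex.zero_cpow (neg_ne_zero.mpr hs0)]
  rw [← Finset.sum_insert_zero (a := (0 : Ideal (𝓞 K))) h0]
  refine (hF _ ?_).le
  intro I hI
  rw [Finset.mem_insert]
  by_cases hI0 : I = 0
  · exact Or.inl hI0
  · exact Or.inr (hM I hI hI0)

/-! ### The 3-4-1 inequality -/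

lemma re_log_comb_nonneg {a : ℝ} (ha₀ : 0 ≤ a) (ha₁ : a < 1) {z : ℂ} (hz : ‖z‖ = 1) :
      0 ≤ 3 * (-Complex.log (1 - a)).re + 4 * (-Complex.log (1 - a * z)).re +
        (-Complex.log (1 - a * z ^ 2)).re := by
  have hac₀ : ‖(a : ℂ)‖ < 1 := by
    simp only [Complex.norm_of_nonneg ha₀, ha₁]
  have hac₁ : ‖a * z‖ < 1 := by rwa [norm_mul, hz, mul_one]
  have hac₂ : ‖a * z ^ 2‖ < 1 := by rwa [norm_mul, norm_pow, hz, one_pow, mul_one]
  rw [← ((Complex.hasSum_re <| Complex.hasSum_taylorSeries_neg_log hac₀).mul_left 3).add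
    ((Complex.hasSum_re <| Complex.hasSum_taylorSeries_neg_log hac₁).mul_left 4) |>.add
    (Complex.hasSum_re <| Complex.hasSum_taylorSeries_neg_log hac₂) |>.tsum_eq]
  refine tsum_nonneg fun n ↦ ?_
  simp only [← Complex.ofReal_pow, Complex.div_natCast_re, Complex.ofReal_re, mul_pow,
    Complex.mul_re, Complex.ofReal_im, zero_mul, sub_zero]
  rcases n.eq_zero_or_pos with rfl | hn
  · simp
  · simp only [← mul_div_assoc, ← add_div]
    refine div_nonneg ?_ n.cast_nonneg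
    rw [← pow_mul, pow_mul', sq, Complex.mul_re, ← sq, ← sq, ← Complex.sq_norm_sub_sq_re,
      norm_pow, hz]
    convert! (show 0 ≤ 2 * a ^ n * ((z ^ n).re + 1) ^ 2 by positivity) using 1
    ring

lemma norm_inv_eq {w : ℂ} (hw : ‖w‖ < 1) : ‖(1 - w)⁻¹‖ = Real.exp (-Complex.log (1 - w)).re := by
  have h : (1 : ℂ) - w ≠ 0 := by
    intro h
    have : w = 1 := (sub_eq_zero.mp h).symm
    rw [this, norm_one] at hw
    exact lt_irrefl _ hw
  rw [← Complex.norm_exp, Complex.exp_neg, Complex.exp_log h]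

lemma local_341 {a : ℝ} (ha₀ : 0 ≤ a) (ha₁ : a < 1) {z : ℂ} (hz : ‖z‖ = 1) :
    1 ≤ ‖(1 - (a : ℂ))⁻¹‖ ^ 3 * ‖(1 - (a : ℂ) * z)⁻¹‖ ^ 4 * ‖(1 - (a : ℂ) * z ^ 2)⁻¹‖ := by
  have hac₀ : ‖(a : ℂ)‖ < 1 := by
    simp only [Complex.norm_of_nonneg ha₀, ha₁]
  have hac₁ : ‖a * z‖ < 1 := by rwa [norm_mul, hz, mul_one]
  have hac₂ : ‖a * z ^ 2‖ < 1 := by rwa [norm_mul, norm_pow, hz, one_pow, mul_one]
  rw [norm_inv_eq hac₀, norm_inv_eq hac₁, norm_inv_eq hac₂, ← Real.exp_nat_mul,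
    ← Real.exp_nat_mul, ← Real.exp_add, ← Real.exp_add]
  exact Real.one_le_exp (by exact_mod_cast re_log_comb_nonneg ha₀ ha₁ hz)

theorem product_341 {x : ℝ} (hx : 0 < x) (u : ℝ) :
    1 ≤ ‖dedekindZeta K (1 + x)‖ ^ 3 * ‖dedekindZeta K (1 + x + u * Complex.I)‖ ^ 4 *
      ‖dedekindZeta K (1 + x + (2 * u : ℝ) * Complex.I)‖ := by
  have h0 : 1 < (1 + x : ℂ).re := by simpa using hx
  have h1 : 1 < (1 + x + u * Complex.I : ℂ).re := by simpa using hx
  have h2 : 1 < (1 + x + (2 * u : ℝ) * Complex.I : ℂ).re := by simpa using hx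
  have hl := (((tendsto_euler (K := K) h0).norm.pow 3).mul ((tendsto_euler (K := K) h1).norm.pow 4)).mul
    (tendsto_euler (K := K) h2).norm
  refine ge_of_tendsto' hl fun S => ?_
  simp only [norm_prod, ← Finset.prod_pow, ← Finset.prod_mul_distrib]
  refine Finset.one_le_prod fun v _ => ?_
  have hv : (1 : ℝ) < nm v := by exact_mod_cast one_lt_nm v
  have hvpos : 0 < nm v := by have := one_lt_nm v; omega
  have hv0 : ((nm v : ℕ) : ℂ) ≠ 0 := by exact_mod_cast hvpos.ne'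
  set a : ℝ := (nm v : ℝ) ^ (-(1 + x)) with ha
  set z : ℂ := (nm v : ℂ) ^ (-(u * Complex.I)) with hzdef
  have hz : ‖z‖ = 1 := by
    rw [hzdef, Complex.norm_natCast_cpow_of_pos hvpos]
    simp
  have e0 : (nm v : ℂ) ^ (-(1 + x : ℂ)) = a := by
    rw [ha, Complex.ofReal_cpow (by positivity)]
    push_cast
    rfl
  have e1 : (nm v : ℂ) ^ (-(1 + x + u * Complex.I : ℂ)) = a * z := by
    rw [neg_add, Complex.cpow_add _ _ hv0, e0]
  have e2 : (nm v : ℂ) ^ (-(1 + x + (2 * u : ℝ) * Complex.I : ℂ)) = a * z ^ 2 := by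
    rw [neg_add, Complex.cpow_add _ _ hv0, e0, hzdef, ← Complex.cpow_nat_mul]
    congr 2
    push_cast
    ring
  rw [e0, e1, e2]
  exact local_341 (by positivity) (Real.rpow_lt_one_of_one_lt_of_neg hv (by linarith)) hz

lemma ne_zero_of_pos {x : ℝ} (hx : 0 < x) (u : ℝ) :
    dedekindZeta K (1 + x + u * Complex.I) ≠ 0 := by
  intro h
  have := product_341 (K := K) hx u
  rw [h] at this
  norm_num at this

/-! ### Continuity to the right of the line -/

lemma lseriesSummable {y : ℝ} (hy : 1 < y) :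
    LSeriesSummable (fun n ↦ ((Nat.card {I : Ideal (𝓞 K) // Ideal.absNorm I = n} : ℕ) : ℂ)) y := by
  refine Summable.of_norm_bounded (summable_idn (K := K) hy) fun n => ?_
  rw [LSeries.norm_term_eq]
  split_ifs with h
  · positivity
  · rw [Complex.ofReal_re, Real.rpow_neg (Nat.cast_nonneg _), div_eq_mul_inv]
    refine le_of_eq ?_
    congr 1
    rw [Complex.norm_natCast]
    rfl

lemma differentiableAt_zeta {s : ℂ} (hs : 1 < s.re) :
    DifferentiableAt ℂ (dedekindZeta K) s := by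
  have h1 : LSeries.abscissaOfAbsConv
      (fun n ↦ ((Nat.card {I : Ideal (𝓞 K) // Ideal.absNorm I = n} : ℕ) : ℂ)) ≤ (1 : ℝ) :=
    LSeries.abscissaOfAbsConv_le_of_forall_lt_LSeriesSummable fun y hy => lseriesSummable hy
  have h2 := LSeries_differentiableOn
    (fun n ↦ ((Nat.card {I : Ideal (𝓞 K) // Ideal.absNorm I = n} : ℕ) : ℂ))
  refine h2.differentiableAt ?_
  refine (Complex.isOpen_re_gt_EReal _).mem_nhds ?_
  exact lt_of_le_of_lt h1 (by exact_mod_cast hs)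

/-! ### Non-vanishing on the line -/

lemma tendsto_path (u : ℝ) :
    Tendsto (fun x : ℝ => (1 + x + u * Complex.I : ℂ)) (𝓝[>] 0) (𝓝 (1 + u * Complex.I)) := by
  have h : Tendsto (fun x : ℝ => (1 + x + u * Complex.I : ℂ)) (𝓝 0)
      (𝓝 (1 + (0 : ℝ) + u * Complex.I)) := Continuous.tendsto (by fun_prop) 0
  simp only [Complex.ofReal_zero, add_zero] at h
  exact h.mono_left nhdsWithin_le_nhds

lemma eventually_eq_zeta {G : ℂ → ℂ} {u : ℝ}
    (h : ∀ᶠ s in 𝓝 (1 + u * Complex.I : ℂ), 1 < s.re → G s = dedekindZeta K s) :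
    ∀ᶠ x : ℝ in 𝓝[>] 0, G (1 + x + u * Complex.I) = dedekindZeta K (1 + x + u * Complex.I) := by
  filter_upwards [(tendsto_path u).eventually h, self_mem_nhdsWithin] with x hx hx0
  have hx0' : (0 : ℝ) < x := hx0
  exact hx (by simpa using hx0')

theorem continuation_ne_zero {G G₂ : ℂ → ℂ} {u : ℝ} (hG : AnalyticAt ℂ G (1 + u * Complex.I))
    (hGeq : ∀ᶠ s in 𝓝 (1 + u * Complex.I : ℂ), 1 < s.re → G s = dedekindZeta K s)
    (hG₂ : AnalyticAt ℂ G₂ (1 + (2 * u : ℝ) * Complex.I))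
    (hG₂eq : ∀ᶠ s in 𝓝 (1 + (2 * u : ℝ) * Complex.I : ℂ), 1 < s.re → G₂ s = dedekindZeta K s) :
    G (1 + u * Complex.I) ≠ 0 := by
  intro h0
  have hx0 : Tendsto (fun x : ℝ => x) (𝓝[>] 0) (𝓝 0) := nhdsWithin_le_nhds
  -- the factor at `1 + x`
  have hA : Tendsto (fun x : ℝ => ‖(x : ℂ) * dedekindZeta K (1 + x)‖) (𝓝[>] 0)
      (𝓝 ‖((dedekindZeta_residue K : ℝ) : ℂ)‖) := by
    have h1 : Tendsto (fun x : ℝ => 1 + x) (𝓝[>] 0) (𝓝[>] 1) := by
      refine tendsto_nhdsWithin_iff.mpr ⟨?_, ?_⟩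
      · have : Tendsto (fun x : ℝ => 1 + x) (𝓝 0) (𝓝 (1 + 0)) := Continuous.tendsto (by fun_prop) 0
        rw [add_zero] at this
        exact this.mono_left nhdsWithin_le_nhds
      · filter_upwards [self_mem_nhdsWithin] with x hx
        have : (0 : ℝ) < x := hx
        simpa using this
    have h2 := ((tendsto_sub_one_mul_dedekindZeta_nhdsGT K).comp h1).norm
    refine h2.congr fun x => ?_
    simp only [Function.comp_apply]
    push_cast
    rw [add_sub_cancel_left]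
  -- the factor at `1 + x + iu`
  have hB : Tendsto (fun x : ℝ => ‖(x : ℂ)⁻¹ * G (1 + x + u * Complex.I)‖) (𝓝[>] 0)
      (𝓝 ‖deriv G (1 + u * Complex.I)‖) := by
    have h1 := hG.differentiableAt.hasDerivAt
    rw [hasDerivAt_iff_tendsto_slope_zero] at h1
    have h2 : Tendsto (fun x : ℝ => (x : ℂ)) (𝓝[>] 0) (𝓝[≠] 0) := by
      refine tendsto_nhdsWithin_iff.mpr ⟨?_, ?_⟩
      · have : Tendsto (fun x : ℝ => (x : ℂ)) (𝓝 0) (𝓝 ((0 : ℝ) : ℂ)) :=
          Continuous.tendsto (by fun_prop) 0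
        rw [Complex.ofReal_zero] at this
        exact this.mono_left nhdsWithin_le_nhds
      · filter_upwards [self_mem_nhdsWithin] with x hx
        have : (0 : ℝ) < x := hx
        simpa using this.ne'
    refine ((h1.comp h2).norm).congr fun x => ?_
    simp only [Function.comp_apply, smul_eq_mul, h0, sub_zero]
    congr 3
    ring
  have hC : Tendsto (fun x : ℝ => ‖G₂ (1 + x + (2 * u : ℝ) * Complex.I)‖) (𝓝[>] 0)
      (𝓝 ‖G₂ (1 + (2 * u : ℝ) * Complex.I)‖) :=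
    (hG₂.continuousAt.tendsto.comp (tendsto_path (2 * u))).norm
  have hlim := (((hA.pow 3).mul (hB.pow 4)).mul hC).mul hx0
  rw [mul_zero] at hlim
  have hge : ∀ᶠ x : ℝ in 𝓝[>] 0, 1 ≤ ‖(x : ℂ) * dedekindZeta K (1 + x)‖ ^ 3 *
      ‖(x : ℂ)⁻¹ * G (1 + x + u * Complex.I)‖ ^ 4 *
      ‖G₂ (1 + x + (2 * u : ℝ) * Complex.I)‖ * x := by
    filter_upwards [eventually_eq_zeta hGeq, eventually_eq_zeta hG₂eq, self_mem_nhdsWithin]
      with x h1 h2 hx
    have hx' : (0 : ℝ) < x := hx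
    rw [h1, h2, norm_mul, norm_mul, norm_inv, Complex.norm_real, Real.norm_eq_abs,
      abs_of_pos hx']
    have h3 := product_341 (K := K) hx' u
    calc (1 : ℝ) ≤ _ := h3
      _ = _ := by field_simp
  exact absurd (ge_of_tendsto hlim hge) (by norm_num)

/-- The logarithm of the Dedekind zeta function is bounded on horizontal segments ending at
`1 + iu`, `u ≠ 0`. -/
theorem log_zeta_bounded (K : Type*) [Field K] [NumberField K]
    (hcont : ∀ u : ℝ, u ≠ 0 → ∃ G : ℂ → ℂ, AnalyticAt ℂ G (1 + u * Complex.I) ∧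
      ∀ᶠ s in 𝓝 (1 + u * Complex.I : ℂ), 1 < s.re → G s = NumberField.dedekindZeta K s)
    (u : ℝ) (hu : u ≠ 0) :
    ∃ C : ℝ, ∀ η ∈ Set.Ioc (0 : ℝ) 1,
      |Real.log ‖NumberField.dedekindZeta K (1 + η + u * Complex.I)‖| ≤ C := by
  obtain ⟨G, hG, hGeq⟩ := hcont u hu
  obtain ⟨G₂, hG₂, hG₂eq⟩ := hcont (2 * u) (by simpa using hu)
  have hne := continuation_ne_zero hG hGeq hG₂ hG₂eq
  have hlim : Tendsto (fun x : ℝ => |Real.log ‖G (1 + x + u * Complex.I)‖|) (𝓝[>] 0)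
      (𝓝 |Real.log ‖G (1 + u * Complex.I)‖|) :=
    (((hG.continuousAt.tendsto.comp (tendsto_path u)).norm).log (norm_ne_zero_iff.mpr hne)).abs
  have hev := (hlim.eventually_lt_const (lt_add_one _)).and (eventually_eq_zeta hGeq)
  obtain ⟨δ, hδ, hδ'⟩ := mem_nhdsGT_iff_exists_Ioo_subset.mp hev
  have hδ0 : (0 : ℝ) < δ := hδ
  have hcts : ContinuousOn
      (fun x : ℝ => Real.log ‖dedekindZeta K (1 + x + u * Complex.I)‖) (Set.Icc δ 1) := by
    intro x hx
    have hx0 : 0 < x := lt_of_lt_of_le hδ0 hx.1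
    have h1 : ContinuousAt (dedekindZeta K) (1 + x + u * Complex.I) :=
      (differentiableAt_zeta (by simpa using hx0)).continuousAt
    have h2 : ContinuousAt (fun x : ℝ => (1 + x + u * Complex.I : ℂ)) x := by fun_prop
    have h3 : ContinuousAt (fun x : ℝ => dedekindZeta K (1 + x + u * Complex.I)) x :=
      ContinuousAt.comp (f := fun x : ℝ => (1 + x + u * Complex.I : ℂ)) h1 h2
    exact (h3.norm.log (norm_ne_zero_iff.mpr (ne_zero_of_pos hx0 u))).continuousWithinAt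
  obtain ⟨C, hC⟩ := isCompact_Icc.exists_bound_of_continuousOn hcts
  refine ⟨max (|Real.log ‖G (1 + u * Complex.I)‖| + 1) C, fun η hη => ?_⟩
  rcases lt_or_ge η δ with h | h
  · have h1 := hδ' ⟨hη.1, h⟩
    have h2 := h1.1
    have h3 := h1.2
    rw [h3] at h2
    exact h2.le.trans (le_max_left _ _)
  · exact (hC η ⟨h, hη.2⟩).trans (le_max_right _ _)

end Pool.Agent.Lib.MP_bf61d2_nt.Zeta
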